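import Pool.Agent.H74.TF.Fin
import Pool.Agent.H57.TF.Yd

/-!
# Twisted Foulkes modules: the components are indecomposable
-/

set_option autoImplicit false

namespace Pool.Agent.Results.MP_b0baa6_al.TwistedFoulkesIndecomposable

open Pool.Agent.H74.TF

/-- Let `p` be an odd prime, `F` a field of characteristic `p` and `lam` a partition of `2m + k`
with exactly `k` odd rows, with `p`-content `τ` and odd sequence `θ`. Then the component in the
block `τ` of the module induced from `H^(2^m)_(τ-θ) ⊠ sgn` is nonzero and indecomposable. -/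
theorem result (p : ℕ) [Fact p.Prime] (hp : p ≠ 2) (F : Type) [Field F] [CharP F p] (m k : ℕ)
    (lam : YoungDiagram) (hcard : lam.card = 2 * m + k) (hodd : nodd lam = k) :
    TFS F m k (lab F p fun r => pcont p lam r - oddseq p lam r) (lab F p (pcont p lam)) ≠ ⊥ ∧
    NoDec (lt F (Equiv.Perm (Pt m k)) (Equiv.Perm (Fin m × Bool) → F))
      (TFS F m k (lab F p fun r => pcont p lam r - oddseq p lam r) (lab F p (pcont p lam))) :=
  goal_of_YD Pool.Agent.H57.TF.t_YD p F m k lam hp hcard hodd

end Pool.Agent.Results.MP_b0baa6_al.TwistedFoulkesIndecomposable
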